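import Pool.Agent.H85.PS.Targets

/-!
# The lemma of Schwarz for a zero of order `T`, and Cauchy's inequality
-/

set_option autoImplicit false

open Polynomial Finset Filter Topology

namespace Pool.Agent.H95.PSV

open Pool.Agent.H85.PS

theorem sch_order {F : ℂ → ℂ} {ρ K : ℝ} {T : ℕ} (hρ : 0 < ρ)
    (hF : DifferentiableOn ℂ F (Metric.ball 0 ρ)) (hK : ∀ z ∈ Metric.ball (0 : ℂ) ρ, ‖F z‖ ≤ K)
    (hT : ∀ j < T, iteratedDeriv j F 0 = 0) {z : ℂ} (hz : z ∈ Metric.ball (0 : ℂ) ρ) :
    ‖F z‖ ≤ K * (‖z‖ / ρ) ^ T := by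
  rcases T with _ | n
  · simpa using hK z hz
  have h0 : F 0 = 0 := by simpa using hT 0 (Nat.succ_pos n)
  have hA : AnalyticAt ℂ F 0 := hF.analyticAt (Metric.ball_mem_nhds _ hρ)
  have ho : ((n + 1 : ℕ) : ℕ∞) ≤ analyticOrderAt F 0 :=
    (natCast_le_analyticOrderAt_iff_iteratedDeriv_eq_zero hA).2 hT
  obtain ⟨g, hg, hgF⟩ := (natCast_le_analyticOrderAt hA).1 ho
  have hlo : (fun w => F w - F 0) =o[𝓝 0] (fun w : ℂ => ‖w - 0‖ ^ n) := by
    have h1 : (fun w => F w - F 0) =ᶠ[𝓝 0] fun w => w ^ (n + 1) * g w := by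
      filter_upwards [hgF] with w hw
      rw [h0, sub_zero, hw, sub_zero, smul_eq_mul]
    refine h1.trans_isLittleO ?_
    have h2 : (fun w : ℂ => w * g w) =o[𝓝 0] (fun _ : ℂ => (1 : ℝ)) := by
      rw [Asymptotics.isLittleO_one_iff]
      have h3 : ContinuousAt (fun w : ℂ => w * g w) 0 := continuousAt_id.mul hg.continuousAt
      have h4 := h3.tendsto
      simpa using h4
    have h5 : (fun w : ℂ => w ^ n) =O[𝓝 0] (fun w : ℂ => ‖w - 0‖ ^ n) := by
      refine Asymptotics.isBigO_of_le _ fun w => ?_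
      simp
    have h6 := h5.mul_isLittleO h2
    refine h6.congr' ?_ ?_
    · exact Eventually.of_forall fun w => by
        simp only
        ring
    · exact Eventually.of_forall fun w => by simp
  have h := Complex.dist_le_mul_div_pow_of_mapsTo_ball_of_isLittleO (f := F) (c := 0) (z := z)
    (R₁ := ρ) (R₂ := K) (n := n) hF (fun w hw => by
      rw [h0]
      simpa using hK w hw) hlo hz
  rw [h0] at h
  simpa using h

theorem pf_SCH : T_SCH := by
  intro F ρ K z0 T i hK hz0 hρ hF hFK hT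
  have hρ0 : 0 < ρ := by linarith
  have hsub : Metric.closedBall (z0 : ℂ) z0 ⊆ Metric.ball 0 ρ := by
    intro z hz
    rw [mem_closedBall_iff_norm] at hz
    rw [mem_ball_zero_iff]
    have h1 : ‖z‖ ≤ ‖z - (z0 : ℂ)‖ + ‖(z0 : ℂ)‖ := by
      simpa using norm_add_le (z - (z0 : ℂ)) (z0 : ℂ)
    rw [Complex.norm_real, Real.norm_eq_abs, abs_of_pos hz0] at h1
    linarith
  have hC : ∀ z ∈ Metric.sphere (z0 : ℂ) z0, ‖F z‖ ≤ K * (2 * z0 / ρ) ^ T := by
    intro z hz
    have hz1 : z ∈ Metric.closedBall (z0 : ℂ) z0 := Metric.sphere_subset_closedBall hz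
    have h2 := sch_order hρ0 hF hFK hT (hsub hz1)
    refine h2.trans (mul_le_mul_of_nonneg_left ?_ hK)
    have h1 : ‖z‖ ≤ 2 * z0 := by
      rw [mem_closedBall_iff_norm] at hz1
      have h1 : ‖z‖ ≤ ‖z - (z0 : ℂ)‖ + ‖(z0 : ℂ)‖ := by
        simpa using norm_add_le (z - (z0 : ℂ)) (z0 : ℂ)
      rw [Complex.norm_real, Real.norm_eq_abs, abs_of_pos hz0] at h1
      linarith
    gcongr
  have h := Complex.norm_iteratedDeriv_le_of_forall_mem_sphere_norm_le i hz0
    (hF.diffContOnCl_ball hsub) hC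
  rw [norm_div]
  have hf : (0 : ℝ) < (i.factorial : ℝ) := by exact_mod_cast i.factorial_pos
  have hn : ‖(i.factorial : ℂ)‖ = (i.factorial : ℝ) := by simp
  rw [hn, div_le_iff₀ hf]
  refine h.trans (le_of_eq ?_)
  ring

theorem pf_RRB : T_RRB := by
  intro s D m B b A a hB hb hA ha hco
  have hB1 : (1 : ℝ) ≤ B := by exact_mod_cast hB
  have hB0 : (0 : ℝ) < B := by linarith
  have hw : ∀ z ∈ Metric.ball (0 : ℂ) (1 / (2 * B)), ∀ k, ‖((((b k : ℕ) : ℚ) : ℂ)) * z‖ ≤ 1 / 2 := by
    intro z hz k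
    rw [mem_ball_zero_iff] at hz
    have h1 : ‖((((b k : ℕ) : ℚ) : ℂ))‖ = (b k : ℝ) := by
      rw [Rat.cast_natCast]
      simp
    have h2 : (b k : ℝ) ≤ B := by exact_mod_cast hb k
    rw [norm_mul, h1]
    calc (b k : ℝ) * ‖z‖ ≤ B * (1 / (2 * B)) := by gcongr
      _ = 1 / 2 := by field_simp
  constructor
  · intro z hz
    refine DifferentiableAt.differentiableWithinAt ?_
    unfold RR
    refine DifferentiableAt.fun_sum fun e _ => ?_
    refine DifferentiableAt.mul ?_ ?_
    · exact (Polynomial.differentiable_aeval (A e)).differentiableAt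
    · refine DifferentiableAt.fun_finsetProd fun k _ => ?_
      refine DifferentiableAt.pow ?_ _
      refine DifferentiableAt.clog (by fun_prop) ?_
      rw [Complex.mem_slitPlane_iff]
      left
      have h1 := Complex.abs_re_le_norm (((((b k : ℕ) : ℚ) : ℂ)) * z)
      have h2 := hw z hz k
      rw [Complex.add_re, Complex.one_re]
      have h3 := neg_abs_le (((((b k : ℕ) : ℚ) : ℂ)) * z).re
      linarith
  · intro z hz
    have hz1 : ‖z‖ ≤ 1 := by
      rw [mem_ball_zero_iff] at hz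
      refine hz.le.trans ?_
      rw [div_le_one (by positivity)]
      linarith
    unfold RR
    refine (norm_sum_le _ _).trans ?_
    have h1 : ∀ e ∈ II s D, ‖aeval z (A e) * ∏ k, Complex.log (1 + ((((b k : ℕ) : ℚ) : ℂ)) * z) ^ e k‖ ≤
        (m + 1) * a := by
      intro e _
      rw [norm_mul]
      have h2 : ‖aeval z (A e)‖ ≤ (m + 1) * a := by
        rw [Polynomial.aeval_eq_sum_range' (Nat.lt_succ_of_le (hA e))]
        refine (norm_sum_le _ _).trans ?_
        have h3 : ∀ j ∈ Finset.range (m + 1), ‖(A e).coeff j • z ^ j‖ ≤ a := by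
          intro j _
          rw [Algebra.smul_def, norm_mul, norm_pow]
          have h4 : ‖algebraMap ℚ ℂ ((A e).coeff j)‖ = |(((A e).coeff j : ℚ) : ℝ)| := by
            rw [eq_ratCast, ← Complex.ofReal_ratCast, Complex.norm_real, Real.norm_eq_abs]
          rw [h4]
          calc _ ≤ a * 1 := mul_le_mul (hco e j) (pow_le_one₀ (norm_nonneg z) hz1)
                (by positivity) ha
            _ = a := mul_one a
        refine (Finset.sum_le_sum h3).trans ?_
        rw [Finset.sum_const, Finset.card_range, nsmul_eq_mul]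
        push_cast
        exact le_rfl
      have h5 : ‖∏ k, Complex.log (1 + ((((b k : ℕ) : ℚ) : ℂ)) * z) ^ e k‖ ≤ 1 := by
        rw [norm_prod]
        refine Finset.prod_le_one (fun k _ => norm_nonneg _) fun k _ => ?_
        rw [norm_pow]
        refine pow_le_one₀ (norm_nonneg _) ?_
        have h6 := hw z hz k
        refine (Complex.norm_log_one_add_half_le_self h6).trans ?_
        linarith
      calc _ ≤ ((m + 1) * a) * 1 := mul_le_mul h2 h5 (norm_nonneg _) (by positivity)
        _ = (m + 1) * a := mul_one _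
    refine (Finset.sum_le_sum h1).trans ?_
    rw [Finset.sum_const, nsmul_eq_mul]
    unfold MM
    exact le_rfl

end Pool.Agent.H95.PSV
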